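import Mathlib

set_option autoImplicit false

/-!
# MP_0ec205_nt, third round, module D3: sums over primes (Karamata's method)
-/

noncomputable section

namespace Pool.Agent.helper18.LS

open MeasureTheory Set Filter Topology ArithmeticFunction

/-- `Λ(n)/n` -/
def wt (n : ℕ) : ℝ := vonMangoldt n / n

lemma wt_nonneg (n : ℕ) : 0 ≤ wt n := div_nonneg vonMangoldt_nonneg (Nat.cast_nonneg n)

/-- the point `1 + k/L + iα` -/
def sp (k L α : ℝ) : ℂ := ⟨1 + k / L, α⟩

lemma term_re {k L : ℝ} (α : ℝ) (n : ℕ) :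
    (LSeries.term (fun n => ((vonMangoldt n : ℝ) : ℂ)) (sp k L α) n).re =
      wt n * Real.exp (-(k * (Real.log n / L))) * Real.cos (α * Real.log n) := by
  rcases Nat.eq_zero_or_pos n with hn | hn
  · subst hn
    simp [LSeries.term, wt]
  · have hn' : (0 : ℝ) < n := by exact_mod_cast hn
    rw [LSeries.term_of_ne_zero hn.ne']
    have h1 : ((n : ℂ) ^ (sp k L α)) = (((n : ℝ) * Real.exp (k * (Real.log n / L)) : ℝ) : ℂ) *
        Complex.exp ((α * Real.log n : ℝ) * Complex.I) := by
      rw [Complex.cpow_def_of_ne_zero (by exact_mod_cast hn.ne')]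
      have h2 : Complex.log (n : ℂ) = ((Real.log n : ℝ) : ℂ) := by
        rw [Complex.natCast_log]
      rw [h2]
      have h3 : (sp k L α) = ((1 + k / L : ℝ) : ℂ) + (α : ℂ) * Complex.I := by
        apply Complex.ext <;> simp [sp]
      rw [h3, mul_add, Complex.exp_add]
      congr 1
      · rw [← Complex.ofReal_mul, ← Complex.ofReal_exp]
        congr 1
        rw [mul_add, mul_one, Real.exp_add, Real.exp_log hn']
        congr 2
        ring
      · congr 1
        push_cast
        ring
    rw [h1]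
    have h4 : (((vonMangoldt n : ℝ) : ℂ)) / ((((n : ℝ) * Real.exp (k * (Real.log n / L)) : ℝ) : ℂ) *
        Complex.exp ((α * Real.log n : ℝ) * Complex.I)) =
        ((wt n * Real.exp (-(k * (Real.log n / L))) : ℝ) : ℂ) *
          Complex.exp (((-(α * Real.log n) : ℝ)) * Complex.I) := by
      have h5 : Complex.exp (((-(α * Real.log n) : ℝ)) * Complex.I) =
          (Complex.exp ((α * Real.log n : ℝ) * Complex.I))⁻¹ := by
        rw [← Complex.exp_neg]
        congr 1
        push_cast
        ring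
      rw [h5, Real.exp_neg, wt]
      push_cast
      rw [div_eq_mul_inv, mul_inv, mul_inv]
      ring
    rw [h4, Complex.re_ofReal_mul, Complex.exp_ofReal_mul_I_re, Real.cos_neg]

lemma summable_term {k L : ℝ} (hk : 0 < k) (hL : 0 < L) (α : ℝ) :
    LSeriesSummable (fun n => ((vonMangoldt n : ℝ) : ℂ)) (sp k L α) := by
  apply LSeriesSummable_vonMangoldt
  show (1 : ℝ) < 1 + k / L
  have : 0 < k / L := div_pos hk hL
  linarith

lemma summable_exp {k L : ℝ} (hk : 0 < k) (hL : 0 < L) (α : ℝ) :
    Summable fun n : ℕ => wt n * Real.exp (-(k * (Real.log n / L))) * Real.cos (α * Real.log n) := by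
  have h1 := Complex.reCLM.summable (summable_term hk hL α)
  refine h1.congr fun n => ?_
  rw [← term_re]
  rfl

/-- the continuous part of `-ζ'/ζ` -/
def Fc (s : ℂ) : ℂ := vonMangoldt.LFunctionResidueClassAux (1 : ZMod 1) s

lemma Fc_cont : ContinuousOn Fc {s | 1 ≤ s.re} :=
  vonMangoldt.continuousOn_LFunctionResidueClassAux (1 : ZMod 1)

lemma LS_eq {s : ℂ} (hs : 1 < s.re) :
    LSeries (fun n => ((vonMangoldt n : ℝ) : ℂ)) s = Fc s + 1 / (s - 1) := by
  have h1 := vonMangoldt.eqOn_LFunctionResidueClassAux (q := 1) (a := 1) isUnit_one hs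
  simp only [Nat.totient_one, Nat.cast_one, inv_one] at h1
  rw [Fc, h1]
  have h2 : (fun n => ((vonMangoldt.residueClass (1 : ZMod 1) n : ℝ) : ℂ)) =
      fun n => ((vonMangoldt n : ℝ) : ℂ) := by
    funext n
    congr 1
    rw [vonMangoldt.residueClass, Set.indicator_of_mem]
    exact Subsingleton.elim _ _
  rw [h2]
  ring

lemma tsum_exp {k L : ℝ} (hk : 0 < k) (hL : 0 < L) (α : ℝ) :
    ∑' n : ℕ, wt n * Real.exp (-(k * (Real.log n / L))) * Real.cos (α * Real.log n) =
      (Fc (sp k L α)).re + (k / L) / ((k / L) ^ 2 + α ^ 2) := by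
  have h1 : (LSeries (fun n => ((vonMangoldt n : ℝ) : ℂ)) (sp k L α)).re =
      ∑' n : ℕ, wt n * Real.exp (-(k * (Real.log n / L))) * Real.cos (α * Real.log n) := by
    rw [LSeries, Complex.re_tsum (summable_term hk hL α)]
    exact tsum_congr fun n => term_re α n
  rw [← h1, LS_eq (by
    show (1 : ℝ) < 1 + k / L
    have : 0 < k / L := div_pos hk hL
    linarith), Complex.add_re]
  congr 1
  have h2 : sp k L α - 1 = ⟨k / L, α⟩ := by
    apply Complex.ext <;> simp [sp]
  rw [h2, one_div, Complex.inv_re, Complex.normSq_mk]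
  simp [pow_two]

lemma lim_exp {k : ℝ} (hk : 0 < k) (α : ℝ) :
    Tendsto (fun L : ℝ => 1 / L * ∑' n : ℕ, wt n * Real.exp (-(k * (Real.log n / L))) *
      Real.cos (α * Real.log n)) atTop (𝓝 (if α = 0 then 1 / k else 0)) := by
  have h0 : Tendsto (fun L : ℝ => L⁻¹) atTop (𝓝 0) := tendsto_inv_atTop_zero
  have h1 : Tendsto (fun L : ℝ => sp k L α) atTop (𝓝[{s | 1 ≤ s.re}] (⟨1, α⟩ : ℂ)) := by
    apply tendsto_nhdsWithin_iff.2
    constructor
    · have h2 : Tendsto (fun L : ℝ => ((1 + k * L⁻¹ : ℝ) : ℂ) + (α : ℂ) * Complex.I) atTop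
          (𝓝 (((1 + k * 0 : ℝ) : ℂ) + (α : ℂ) * Complex.I)) := by
        apply Tendsto.add _ tendsto_const_nhds
        exact (Complex.continuous_ofReal.tendsto _).comp ((h0.const_mul k).const_add 1)
      have h3 : (((1 + k * 0 : ℝ) : ℂ) + (α : ℂ) * Complex.I) = ⟨1, α⟩ := by
        apply Complex.ext <;> simp
      rw [h3] at h2
      refine h2.congr fun L => ?_
      apply Complex.ext
      · rw [Complex.add_re, Complex.ofReal_re, Complex.mul_I_re, Complex.ofReal_im, neg_zero,
          add_zero, ← div_eq_mul_inv]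
        rfl
      · rw [Complex.add_im, Complex.ofReal_im, Complex.mul_I_im, Complex.ofReal_re, zero_add]
        rfl
    · filter_upwards [eventually_gt_atTop 0] with L hL
      show (1 : ℝ) ≤ 1 + k / L
      have : 0 < k / L := div_pos hk hL
      linarith
  have h2 : Tendsto (fun L : ℝ => (Fc (sp k L α)).re) atTop (𝓝 (Fc ⟨1, α⟩).re) :=
    (Complex.continuous_re.tendsto _).comp ((Fc_cont _ (by simp)).tendsto.comp h1)
  have h3 : Tendsto (fun L : ℝ => L⁻¹ * (Fc (sp k L α)).re) atTop (𝓝 0) := by
    have := h0.mul h2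
    simpa using this
  have h4 : Tendsto (fun L : ℝ => k / (k ^ 2 + α ^ 2 * L ^ 2)) atTop
      (𝓝 (if α = 0 then 1 / k else 0)) := by
    by_cases hα : α = 0
    · subst hα
      rw [if_pos rfl]
      have : (fun L : ℝ => k / (k ^ 2 + 0 ^ 2 * L ^ 2)) = fun _ => 1 / k := by
        funext L
        field_simp
        ring
      rw [this]
      exact tendsto_const_nhds
    · rw [if_neg hα]
      have h5 : Tendsto (fun L : ℝ => α ^ 2 * L ^ 2) atTop atTop :=
        Tendsto.const_mul_atTop (by positivity) (tendsto_pow_atTop two_ne_zero)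
      have h6 : Tendsto (fun L : ℝ => k ^ 2 + α ^ 2 * L ^ 2) atTop atTop :=
        tendsto_atTop_add_const_left _ _ h5
      exact h6.const_div_atTop k
  have h5 := h3.add h4
  rw [zero_add] at h5
  refine h5.congr' ?_
  filter_upwards [eventually_gt_atTop 0] with L hL
  rw [tsum_exp hk hL α, mul_add, one_div]
  congr 1
  have h7 : 0 < k ^ 2 + α ^ 2 * L ^ 2 := by positivity
  have h8 : 0 < (k / L) ^ 2 + α ^ 2 := by positivity
  field_simp

/-- `e^{-u} P(e^{-u})` -/
def GP (P : Polynomial ℝ) (u : ℝ) : ℝ := Real.exp (-u) * P.eval (Real.exp (-u))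

lemma GP_eq (P : Polynomial ℝ) (u : ℝ) :
    GP P u = ∑ j ∈ Finset.range (P.natDegree + 1), P.coeff j * Real.exp (-(((j : ℝ) + 1) * u)) := by
  rw [GP, Polynomial.eval_eq_sum_range, Finset.mul_sum]
  apply Finset.sum_congr rfl
  intro j _
  rw [← Real.exp_nat_mul, mul_left_comm, ← Real.exp_add]
  congr 2
  ring

lemma GP_summable (P : Polynomial ℝ) {L : ℝ} (hL : 0 < L) (α : ℝ) :
    Summable fun n : ℕ => wt n * GP P (Real.log n / L) * Real.cos (α * Real.log n) := by
  have h1 : Summable fun n : ℕ => ∑ j ∈ Finset.range (P.natDegree + 1), P.coeff j *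
      (wt n * Real.exp (-(((j : ℝ) + 1) * (Real.log n / L))) * Real.cos (α * Real.log n)) := by
    apply summable_sum
    intro j _
    exact (summable_exp (by positivity) hL α).mul_left _
  refine h1.congr fun n => ?_
  rw [GP_eq, Finset.mul_sum, Finset.sum_mul]
  apply Finset.sum_congr rfl
  intro j _
  ring

lemma GP_lim (P : Polynomial ℝ) (α : ℝ) :
    Tendsto (fun L : ℝ => 1 / L * ∑' n : ℕ, wt n * GP P (Real.log n / L) *
      Real.cos (α * Real.log n)) atTop
      (𝓝 (if α = 0 then ∑ j ∈ Finset.range (P.natDegree + 1), P.coeff j * (1 / ((j : ℝ) + 1))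
        else 0)) := by
  have h1 : Tendsto (fun L : ℝ => ∑ j ∈ Finset.range (P.natDegree + 1), P.coeff j *
      (1 / L * ∑' n : ℕ, wt n * Real.exp (-(((j : ℝ) + 1) * (Real.log n / L))) *
        Real.cos (α * Real.log n))) atTop
      (𝓝 (∑ j ∈ Finset.range (P.natDegree + 1), P.coeff j *
        (if α = 0 then 1 / ((j : ℝ) + 1) else 0))) := by
    apply tendsto_finsetSum
    intro j _
    exact (lim_exp (by positivity) α).const_mul _
  have h2 : ∑ j ∈ Finset.range (P.natDegree + 1), P.coeff j *
        (if α = 0 then 1 / ((j : ℝ) + 1) else 0) =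
      (if α = 0 then ∑ j ∈ Finset.range (P.natDegree + 1), P.coeff j * (1 / ((j : ℝ) + 1))
        else 0) := by
    split_ifs <;> simp
  rw [h2] at h1
  refine h1.congr' ?_
  filter_upwards [eventually_gt_atTop 0] with L hL
  have h3 : ∀ n : ℕ, wt n * GP P (Real.log n / L) * Real.cos (α * Real.log n) =
      ∑ j ∈ Finset.range (P.natDegree + 1), P.coeff j *
      (wt n * Real.exp (-(((j : ℝ) + 1) * (Real.log n / L))) * Real.cos (α * Real.log n)) := by
    intro n
    rw [GP_eq, Finset.mul_sum, Finset.sum_mul]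
    apply Finset.sum_congr rfl
    intro j _
    ring
  rw [tsum_congr h3, Summable.tsum_finsetSum, Finset.mul_sum]
  · apply Finset.sum_congr rfl
    intro j _
    rw [tsum_mul_left]
    ring
  · intro j _
    exact (summable_exp (by positivity) hL α).mul_left _

lemma exp_int {k : ℝ} (hk : 0 < k) : IntegrableOn (fun u : ℝ => Real.exp (-(k * u))) (Ioi 0) := by
  have := exp_neg_integrableOn_Ioi 0 hk
  simpa [neg_mul] using this

lemma exp_integral {k : ℝ} (hk : 0 < k) : ∫ u in Ioi (0 : ℝ), Real.exp (-(k * u)) = 1 / k := by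
  have h := integral_exp_mul_Ioi (a := -k) (by linarith) 0
  have h2 : ∀ u : ℝ, Real.exp (-(k * u)) = Real.exp (-k * u) := fun u => by rw [neg_mul]
  simp_rw [h2]
  rw [h]
  simp

lemma GP_int (P : Polynomial ℝ) : IntegrableOn (GP P) (Ioi 0) := by
  have h1 : GP P = fun u => ∑ j ∈ Finset.range (P.natDegree + 1), P.coeff j *
      Real.exp (-(((j : ℝ) + 1) * u)) := funext (GP_eq P)
  rw [h1]
  apply integrable_finsetSum
  intro j _
  exact (exp_int (by positivity)).const_mul _

lemma GP_integral (P : Polynomial ℝ) : ∫ u in Ioi (0 : ℝ), GP P u =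
    ∑ j ∈ Finset.range (P.natDegree + 1), P.coeff j * (1 / ((j : ℝ) + 1)) := by
  have h1 : GP P = fun u => ∑ j ∈ Finset.range (P.natDegree + 1), P.coeff j *
      Real.exp (-(((j : ℝ) + 1) * u)) := funext (GP_eq P)
  rw [h1, integral_finsetSum]
  · apply Finset.sum_congr rfl
    intro j _
    rw [integral_const_mul, exp_integral (by positivity)]
  · intro j _
    exact (exp_int (by positivity)).const_mul _

/-- the approximation -/
lemma exists_GP (G : ℝ → ℝ) (hG : Continuous G) (b : ℝ) (hb : ∀ u, b ≤ u → G u = 0) {ε : ℝ}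
    (hε : 0 < ε) : ∃ P : Polynomial ℝ, ∀ u, 0 ≤ u → |G u - GP P u| ≤ ε * Real.exp (-u) := by
  set h : ℝ → ℝ := fun y => G (-Real.log y) / y with hh
  have h0 : ∀ y : ℝ, 0 < y → y ≤ Real.exp (-b) → h y = 0 := by
    intro y hy hyb
    have h1 : Real.log y ≤ -b := by
      rw [← Real.log_exp (-b)]
      exact Real.log_le_log hy hyb
    have h3 : G (-Real.log y) = 0 := by
      apply hb
      linarith
    simp [hh, h3]
  have hcont : ContinuousOn h (Icc 0 1) := by
    intro y hy
    rcases hy.1.eq_or_lt with hy0 | hy0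
    · subst hy0
      have h1 : h =ᶠ[𝓝[Icc 0 1] (0 : ℝ)] fun _ => 0 := by
        have : ∀ᶠ y in 𝓝 (0 : ℝ), y < Real.exp (-b) := eventually_lt_nhds (Real.exp_pos _)
        filter_upwards [this.filter_mono nhdsWithin_le_nhds, self_mem_nhdsWithin] with z hz hz'
        rcases hz'.1.eq_or_lt with h2 | h2
        · rw [← h2]; simp [hh]
        · exact h0 z h2 hz.le
      exact (continuousWithinAt_const (b := (0 : ℝ))).congr_of_eventuallyEq h1 (by simp [hh])
    · apply ContinuousAt.continuousWithinAt
      have h1 : ContinuousAt Real.log y := Real.continuousAt_log hy0.ne'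
      exact ((hG.continuousAt.comp h1.neg)).div continuousAt_id hy0.ne'
  obtain ⟨P, hP⟩ := exists_polynomial_near_of_continuousOn 0 1 h hcont ε hε
  refine ⟨P, fun u hu => ?_⟩
  have hy0 : 0 < Real.exp (-u) := Real.exp_pos _
  have hy1 : Real.exp (-u) ≤ 1 := by
    rw [Real.exp_le_one_iff]
    linarith
  have h1 := hP (Real.exp (-u)) ⟨hy0.le, hy1⟩
  have h2 : h (Real.exp (-u)) = G u / Real.exp (-u) := by
    simp [hh, Real.log_exp]
  rw [h2] at h1
  have h3 : G u - GP P u = -(Real.exp (-u) * (Polynomial.eval (Real.exp (-u)) P -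
      G u / Real.exp (-u))) := by
    rw [GP, mul_sub, mul_div_cancel₀ _ hy0.ne']
    ring
  rw [h3, abs_neg, abs_mul, abs_of_pos hy0, mul_comm]
  exact mul_le_mul_of_nonneg_right h1.le hy0.le

/-- a bounded function with compact support is dominated by the exponential -/
lemma exists_bound (G : ℝ → ℝ) (hG : Continuous G) (b : ℝ) (hb : ∀ u, b ≤ u → G u = 0) :
    ∃ C : ℝ, 0 < C ∧ ∀ u, 0 ≤ u → |G u| ≤ C * Real.exp (-u) := by
  obtain ⟨P, hP⟩ := exists_GP G hG b hb one_pos
  obtain ⟨M, hM⟩ := (isCompact_Icc (a := (0 : ℝ)) (b := 1)).exists_bound_of_continuousOn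
    (f := fun y => P.eval y) P.continuous.continuousOn
  refine ⟨|M| + 1, by positivity, fun u hu => ?_⟩
  have hy0 : 0 < Real.exp (-u) := Real.exp_pos _
  have hy1 : Real.exp (-u) ≤ 1 := by
    rw [Real.exp_le_one_iff]
    linarith
  have h1 := hM (Real.exp (-u)) ⟨hy0.le, hy1⟩
  have h2 : |GP P u| ≤ |M| * Real.exp (-u) := by
    rw [GP, abs_mul, abs_of_pos hy0, mul_comm]
    exact mul_le_mul_of_nonneg_right (h1.trans (le_abs_self M)) hy0.le
  have h3 : G u = (G u - GP P u) + GP P u := by ring
  calc |G u| = |(G u - GP P u) + GP P u| := by rw [← h3]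
    _ ≤ |G u - GP P u| + |GP P u| := abs_add_le _ _
    _ ≤ 1 * Real.exp (-u) + |M| * Real.exp (-u) := add_le_add (hP u hu) h2
    _ = (|M| + 1) * Real.exp (-u) := by ring

lemma log_div_nonneg (n : ℕ) {L : ℝ} (hL : 0 < L) : 0 ≤ Real.log n / L :=
  div_nonneg (Real.log_natCast_nonneg n) hL.le

lemma summable_wt {L : ℝ} (hL : 0 < L) :
    Summable fun n : ℕ => wt n * Real.exp (-(Real.log n / L)) := by
  have := summable_exp one_pos hL 0
  simpa using this

lemma summable_G (G : ℝ → ℝ) {C : ℝ} (hC : ∀ u, 0 ≤ u → |G u| ≤ C * Real.exp (-u)) {L : ℝ}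
    (hL : 0 < L) (α : ℝ) :
    Summable fun n : ℕ => wt n * G (Real.log n / L) * Real.cos (α * Real.log n) := by
  apply Summable.of_norm_bounded ((summable_wt hL).mul_left C)
  intro n
  rw [Real.norm_eq_abs, abs_mul, abs_mul, abs_of_nonneg (wt_nonneg n)]
  have h1 := hC _ (log_div_nonneg n hL)
  calc wt n * |G (Real.log n / L)| * |Real.cos (α * Real.log n)|
      ≤ wt n * |G (Real.log n / L)| * 1 :=
        mul_le_mul_of_nonneg_left (Real.abs_cos_le_one _) (mul_nonneg (wt_nonneg n) (abs_nonneg _))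
    _ ≤ wt n * (C * Real.exp (-(Real.log n / L))) * 1 := by
        gcongr
        exact wt_nonneg n
    _ = C * (wt n * Real.exp (-(Real.log n / L))) := by ring

lemma mangoldt_sum (α : ℝ) (G : ℝ → ℝ) (hG : Continuous G) (b : ℝ) (hb : ∀ u, b ≤ u → G u = 0) :
    Tendsto (fun L : ℝ => 1 / L * ∑' n : ℕ, wt n * G (Real.log n / L) *
      Real.cos (α * Real.log n)) atTop
      (𝓝 (if α = 0 then ∫ u in Ioi (0 : ℝ), G u else 0)) := by
  obtain ⟨C, hC0, hC⟩ := exists_bound G hG b hb
  have hGint : IntegrableOn G (Ioi 0) := by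
    have h1 : IntegrableOn (fun u : ℝ => C * Real.exp (-u)) (Ioi 0) := by
      have := (exp_int one_pos).const_mul C
      simp only [one_mul] at this
      exact this
    refine h1.mono' hG.aestronglyMeasurable ?_
    filter_upwards [ae_restrict_mem measurableSet_Ioi] with u hu
    exact hC u (le_of_lt hu)
  rw [Metric.tendsto_atTop]
  intro ε hε
  obtain ⟨P, hP⟩ := exists_GP G hG b hb (ε := ε / 5) (by positivity)
  have h1 := GP_lim P α
  rw [Metric.tendsto_atTop] at h1
  obtain ⟨L1, hL1⟩ := h1 (ε / 5) (by positivity)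
  have h2 := lim_exp (k := 1) one_pos 0
  rw [if_pos rfl, Metric.tendsto_atTop] at h2
  obtain ⟨L2, hL2⟩ := h2 1 one_pos
  refine ⟨max (max L1 L2) 1, fun L hL => ?_⟩
  have hLL1 : L1 ≤ L := (le_max_left _ _).trans ((le_max_left _ _).trans hL)
  have hLL2 : L2 ≤ L := (le_max_right _ _).trans ((le_max_left _ _).trans hL)
  have hL0 : 0 < L := lt_of_lt_of_le one_pos ((le_max_right _ _).trans hL)
  have hA := hL1 L hLL1
  have hB := hL2 L hLL2
  rw [Real.dist_eq] at hA hB ⊢
  -- difference of the sums
  have hD : |1 / L * ∑' n : ℕ, wt n * G (Real.log n / L) * Real.cos (α * Real.log n) -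
      1 / L * ∑' n : ℕ, wt n * GP P (Real.log n / L) * Real.cos (α * Real.log n)| ≤
      ε / 5 * 2 := by
    rw [← mul_sub, ← Summable.tsum_sub (summable_G G hC hL0 α) (GP_summable P hL0 α), abs_mul,
      abs_of_pos (by positivity : 0 < 1 / L)]
    have h3 : |∑' n : ℕ, (wt n * G (Real.log n / L) * Real.cos (α * Real.log n) -
        wt n * GP P (Real.log n / L) * Real.cos (α * Real.log n))| ≤
        ∑' n : ℕ, ε / 5 * (wt n * Real.exp (-(Real.log n / L))) := by
      rw [← Real.norm_eq_abs]
      apply tsum_of_norm_bounded ((summable_wt hL0).mul_left (ε / 5)).hasSum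
      intro n
      have h4 : wt n * G (Real.log n / L) * Real.cos (α * Real.log n) -
        wt n * GP P (Real.log n / L) * Real.cos (α * Real.log n) =
        wt n * (G (Real.log n / L) - GP P (Real.log n / L)) * Real.cos (α * Real.log n) := by ring
      rw [h4, Real.norm_eq_abs, abs_mul, abs_mul, abs_of_nonneg (wt_nonneg n)]
      have h5 := hP _ (log_div_nonneg n hL0)
      calc wt n * |G (Real.log n / L) - GP P (Real.log n / L)| * |Real.cos (α * Real.log n)|
          ≤ wt n * |G (Real.log n / L) - GP P (Real.log n / L)| * 1 :=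
            mul_le_mul_of_nonneg_left (Real.abs_cos_le_one _)
              (mul_nonneg (wt_nonneg n) (abs_nonneg _))
        _ ≤ wt n * (ε / 5 * Real.exp (-(Real.log n / L))) * 1 := by
            gcongr
            exact wt_nonneg n
        _ = ε / 5 * (wt n * Real.exp (-(Real.log n / L))) := by ring
    rw [tsum_mul_left] at h3
    have h6 : 1 / L * ∑' n : ℕ, wt n * Real.exp (-(Real.log n / L)) ≤ 2 := by
      have h7 : ∑' n : ℕ, wt n * Real.exp (-(1 * (Real.log n / L))) *
          Real.cos (0 * Real.log n) = ∑' n : ℕ, wt n * Real.exp (-(Real.log n / L)) := by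
        apply tsum_congr
        intro n
        simp
      rw [h7] at hB
      have := (abs_lt.1 hB).2
      linarith
    calc 1 / L * |∑' n : ℕ, (wt n * G (Real.log n / L) * Real.cos (α * Real.log n) -
        wt n * GP P (Real.log n / L) * Real.cos (α * Real.log n))|
        ≤ 1 / L * (ε / 5 * ∑' n : ℕ, wt n * Real.exp (-(Real.log n / L))) :=
          mul_le_mul_of_nonneg_left h3 (by positivity)
      _ = ε / 5 * (1 / L * ∑' n : ℕ, wt n * Real.exp (-(Real.log n / L))) := by ring
      _ ≤ ε / 5 * 2 := mul_le_mul_of_nonneg_left h6 (by positivity)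
  -- difference of the integrals
  have hE : |(if α = 0 then ∑ j ∈ Finset.range (P.natDegree + 1), P.coeff j * (1 / ((j : ℝ) + 1))
        else 0) - (if α = 0 then ∫ u in Ioi (0 : ℝ), G u else 0)| ≤ ε / 5 := by
    split_ifs
    · rw [← GP_integral, ← integral_sub (GP_int P) hGint]
      have h3 : ∫ u in Ioi (0 : ℝ), ε / 5 * Real.exp (-u) = ε / 5 := by
        rw [integral_const_mul]
        have := exp_integral one_pos
        simp only [one_mul, one_div, inv_one] at this
        rw [this, mul_one]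
      rw [← h3, ← Real.norm_eq_abs]
      apply norm_integral_le_of_norm_le
      · have := (exp_int one_pos).const_mul (ε / 5)
        simpa using this
      · filter_upwards [ae_restrict_mem measurableSet_Ioi] with u hu
        rw [Real.norm_eq_abs, abs_sub_comm]
        exact hP u (le_of_lt hu)
    · simp
      positivity
  have hD' := abs_le.1 hD
  have hE' := abs_le.1 hE
  have hA' := abs_lt.1 hA
  rw [abs_lt]
  constructor
  · linarith [hD'.1, hD'.2, hE'.1, hE'.2, hA'.1, hA'.2]
  · linarith [hD'.1, hD'.2, hE'.1, hE'.2, hA'.1, hA'.2]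

lemma summable_nonprime : Summable fun n : ℕ => if n.Prime then 0 else wt n := by
  have h1 := vonMangoldt.summable_residueClass_non_primes_div (1 : ZMod 1)
  refine h1.congr fun n => ?_
  have h2 : vonMangoldt.residueClass (1 : ZMod 1) n = vonMangoldt n := by
    rw [vonMangoldt.residueClass, Set.indicator_of_mem]
    exact Subsingleton.elim _ _
  rw [h2]
  split_ifs
  · simp
  · rfl

theorem prime_sum (α : ℝ) (G : ℝ → ℝ) (hG : Continuous G) (b : ℝ) (hb : ∀ u, b ≤ u → G u = 0) :
    Tendsto (fun L : ℝ => 1 / L * ∑' p : ℕ, if p.Prime then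
        Real.log p / p * G (Real.log p / L) * Real.cos (α * Real.log p) else 0) atTop
      (𝓝 (if α = 0 then ∫ u in Ioi (0 : ℝ), G u else 0)) := by
  obtain ⟨C, hC0, hC⟩ := exists_bound G hG b hb
  have h1 := mangoldt_sum α G hG b hb
  have hbound : ∀ (L : ℝ), 0 < L → ∀ n : ℕ,
      ‖if n.Prime then 0 else wt n * G (Real.log n / L) * Real.cos (α * Real.log n)‖ ≤
        C * (if n.Prime then 0 else wt n) := by
    intro L hL n
    split_ifs
    · simp
    · rw [Real.norm_eq_abs, abs_mul, abs_mul, abs_of_nonneg (wt_nonneg n)]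
      have h2 := hC _ (log_div_nonneg n hL)
      have h3 : |G (Real.log n / L)| ≤ C := by
        refine h2.trans ?_
        have : Real.exp (-(Real.log n / L)) ≤ 1 := by
          rw [Real.exp_le_one_iff]
          have := log_div_nonneg n hL
          linarith
        calc C * Real.exp (-(Real.log n / L)) ≤ C * 1 := mul_le_mul_of_nonneg_left this hC0.le
          _ = C := mul_one C
      calc wt n * |G (Real.log n / L)| * |Real.cos (α * Real.log n)|
          ≤ wt n * |G (Real.log n / L)| * 1 :=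
            mul_le_mul_of_nonneg_left (Real.abs_cos_le_one _)
              (mul_nonneg (wt_nonneg n) (abs_nonneg _))
        _ ≤ wt n * C * 1 := by
            gcongr
            exact wt_nonneg n
        _ = C * wt n := by ring
  have h2 : Tendsto (fun L : ℝ => 1 / L * ∑' n : ℕ, if n.Prime then 0 else
      wt n * G (Real.log n / L) * Real.cos (α * Real.log n)) atTop (𝓝 0) := by
    have h3 : Tendsto (fun L : ℝ => 1 / L * (C * ∑' n : ℕ, if n.Prime then 0 else wt n)) atTop
        (𝓝 0) := by
      have := (tendsto_inv_atTop_zero (𝕜 := ℝ)).mul_const (C * ∑' n : ℕ, if n.Prime then 0 else wt n)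
      rw [zero_mul] at this
      refine this.congr fun L => ?_
      rw [one_div]
    apply squeeze_zero_norm' _ h3
    filter_upwards [eventually_gt_atTop 0] with L hL
    rw [norm_mul, Real.norm_eq_abs, abs_of_pos (by positivity : 0 < 1 / L)]
    apply mul_le_mul_of_nonneg_left _ (by positivity)
    rw [← tsum_mul_left]
    exact tsum_of_norm_bounded (summable_nonprime.mul_left C).hasSum (hbound L hL)
  have h3 := h1.sub h2
  rw [sub_zero] at h3
  refine h3.congr' ?_
  filter_upwards [eventually_gt_atTop 0] with L hL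
  rw [← mul_sub, ← Summable.tsum_sub (summable_G G hC hL α)
    (Summable.of_norm_bounded (summable_nonprime.mul_left C) (hbound L hL))]
  congr 1
  apply tsum_congr
  intro p
  split_ifs with hp
  · rw [sub_zero, wt, vonMangoldt_apply_prime hp]
  · simp

end Pool.Agent.helper18.LS
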