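import Mathlib

set_option autoImplicit false

/-!
# MP_0ec205_nt, third round, module D4: weights that are polynomials in a Gaussian
-/

noncomputable section

namespace Pool.Agent.helper18.LS

open MeasureTheory Set Filter Topology

/-- `∑_{j < J} c_j e^{-(j+1)u²}` -/
def Wf (J : ℕ) (c : ℕ → ℝ) (u : ℝ) : ℝ :=
  ∑ j ∈ Finset.range J, c j * Real.exp (-(((j : ℝ) + 1) * u ^ 2))

theorem exists_weight (f : ℝ → ℝ) (hf : Continuous f) (he : ∀ u, f (-u) = f u) (b : ℝ)
    (hb : ∀ u, b ≤ |u| → f u = 0) {ε : ℝ} (hε : 0 < ε) :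
    ∃ (J : ℕ) (c : ℕ → ℝ), ∀ u, f u ≤ Wf J c u ∧ Wf J c u ≤ f u + ε * Real.exp (-u ^ 2) := by
  set h : ℝ → ℝ := fun y => f (Real.sqrt (-Real.log y)) / y with hh
  -- `h` vanishes near zero
  have h0 : ∀ y : ℝ, 0 < y → y ≤ Real.exp (-b ^ 2) → h y = 0 := by
    intro y hy hyb
    have h1 : Real.log y ≤ -b ^ 2 := by
      rw [← Real.log_exp (-b ^ 2)]
      exact Real.log_le_log hy hyb
    have h2 : |b| ≤ Real.sqrt (-Real.log y) := by
      rw [← Real.sqrt_sq_eq_abs]
      exact Real.sqrt_le_sqrt (by linarith)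
    have h3 : f (Real.sqrt (-Real.log y)) = 0 := by
      apply hb
      rw [abs_of_nonneg (Real.sqrt_nonneg _)]
      exact (le_abs_self b).trans h2
    simp [hh, h3]
  have hcont : ContinuousOn h (Icc 0 1) := by
    intro y hy
    rcases hy.1.eq_or_lt with hy0 | hy0
    · -- at zero
      subst hy0
      have h1 : h =ᶠ[𝓝[Icc 0 1] (0 : ℝ)] fun _ => 0 := by
        have : ∀ᶠ y in 𝓝 (0 : ℝ), y < Real.exp (-b ^ 2) := eventually_lt_nhds (Real.exp_pos _)
        filter_upwards [this.filter_mono nhdsWithin_le_nhds, self_mem_nhdsWithin] with z hz hz'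
        rcases hz'.1.eq_or_lt with h2 | h2
        · rw [← h2]; simp [hh]
        · exact h0 z h2 hz.le
      exact (continuousWithinAt_const (b := (0 : ℝ))).congr_of_eventuallyEq h1 (by simp [hh])
    · apply ContinuousAt.continuousWithinAt
      have h1 : ContinuousAt Real.log y := Real.continuousAt_log hy0.ne'
      exact ((hf.continuousAt.comp (Real.continuous_sqrt.continuousAt.comp h1.neg))).div
        continuousAt_id hy0.ne'
  obtain ⟨P, hP⟩ := exists_polynomial_near_of_continuousOn 0 1 (fun y => h y + ε / 2)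
    (hcont.add continuousOn_const) (ε / 2) (by positivity)
  refine ⟨P.natDegree + 1, P.coeff, fun u => ?_⟩
  set y : ℝ := Real.exp (-u ^ 2) with hy
  have hy0 : 0 < y := Real.exp_pos _
  have hy1 : y ≤ 1 := by
    rw [hy, Real.exp_le_one_iff]
    nlinarith [sq_nonneg u]
  have hW : Wf (P.natDegree + 1) P.coeff u = y * P.eval y := by
    rw [Polynomial.eval_eq_sum_range, Finset.mul_sum]
    unfold Wf
    refine Finset.sum_congr rfl fun j _ => ?_
    have : Real.exp (-(((j : ℝ) + 1) * u ^ 2)) = y * y ^ j := by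
      rw [hy, ← Real.exp_nat_mul, ← Real.exp_add]
      congr 1
      ring
    rw [this]
    ring
  have hyh : y * h y = f u := by
    have h1 : -Real.log y = u ^ 2 := by rw [hy, Real.log_exp]; ring
    have h2 : f |u| = f u := by
      rcases abs_choice u with h | h
      · rw [h]
      · rw [h, he]
    rw [hh]
    simp only
    rw [h1, Real.sqrt_sq_eq_abs, h2]
    field_simp
  have h3 := abs_lt.mp (hP y ⟨hy0.le, hy1⟩)
  rw [hW]
  constructor
  · rw [← hyh]
    exact mul_le_mul_of_nonneg_left (by linarith [h3.1]) hy0.le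
  · have : P.eval y ≤ h y + ε := by linarith [h3.2]
    calc y * P.eval y ≤ y * (h y + ε) := mul_le_mul_of_nonneg_left this hy0.le
      _ = f u + ε * y := by rw [mul_add, hyh]; ring

/-- one Gaussian -/
lemma gauss_lip {a : ℝ} (ha : 1 ≤ a) {u h : ℝ} (hh : |h| ≤ 1) :
    |Real.exp (-(a * (u + h) ^ 2)) - Real.exp (-(a * u ^ 2))| ≤
      2 * a * Real.exp (1 / 2) * |h| * Real.exp (-(u ^ 2 / 4)) := by
  have hder : ∀ v : ℝ, HasDerivAt (fun v => Real.exp (-(a * v ^ 2)))
      (Real.exp (-(a * v ^ 2)) * (-(a * (2 * v)))) v := by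
    intro v
    have h1 : HasDerivAt (fun v : ℝ => -(a * v ^ 2)) (-(a * (2 * v))) v := by
      have h2 : HasDerivAt (fun v : ℝ => a * v ^ 2) (a * (2 * v)) v := by
        simpa using (hasDerivAt_pow 2 v).const_mul a
      exact h2.neg
    exact h1.exp
  have hbd : ∀ v ∈ uIcc u (u + h), ‖Real.exp (-(a * v ^ 2)) * (-(a * (2 * v)))‖ ≤
      2 * a * Real.exp (1 / 2) * Real.exp (-(u ^ 2 / 4)) := by
    intro v hv
    have hvu : |v - u| ≤ 1 := by
      rw [mem_uIcc] at hv
      rw [abs_le] at hh ⊢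
      rcases hv with ⟨h1, h2⟩ | ⟨h1, h2⟩ <;> constructor <;> linarith [hh.1, hh.2]
    have e1 : u ^ 2 / 2 - 1 ≤ v ^ 2 := by
      have h1 : (v - u) ^ 2 ≤ 1 := by
        rw [← sq_abs]
        nlinarith [abs_nonneg (v - u)]
      nlinarith [sq_nonneg (v + (v - u))]
    have e2 : |v| ≤ Real.exp (v ^ 2 / 2) := by
      have h1 : v ^ 2 / 2 + 1 ≤ Real.exp (v ^ 2 / 2) := Real.add_one_le_exp _
      have h2 : |v| ≤ v ^ 2 / 2 + 1 := by
        rw [abs_le]
        constructor <;> nlinarith [sq_nonneg (v - 1), sq_nonneg (v + 1)]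
      linarith
    have e3 : Real.exp (-(a * v ^ 2)) ≤ Real.exp (-v ^ 2) := by
      apply Real.exp_le_exp.mpr
      nlinarith [sq_nonneg v]
    rw [norm_mul, Real.norm_of_nonneg (Real.exp_pos _).le, Real.norm_eq_abs, abs_neg, abs_mul,
      abs_mul, abs_of_nonneg (by linarith : 0 ≤ a), abs_of_nonneg (by norm_num : (0 : ℝ) ≤ 2)]
    calc Real.exp (-(a * v ^ 2)) * (a * (2 * |v|)) ≤
        Real.exp (-v ^ 2) * (a * (2 * Real.exp (v ^ 2 / 2))) := by gcongr
      _ = 2 * a * Real.exp (-(v ^ 2 / 2)) := by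
          have : Real.exp (-v ^ 2) * Real.exp (v ^ 2 / 2) = Real.exp (-(v ^ 2 / 2)) := by
            rw [← Real.exp_add]; congr 1; ring
          rw [← this]; ring
      _ ≤ 2 * a * Real.exp (1 / 2 + -(u ^ 2 / 4)) := by
          gcongr
          linarith
      _ = _ := by rw [Real.exp_add]; ring
  have h1 := Convex.norm_image_sub_le_of_norm_hasDerivWithin_le
    (fun v _ => (hder v).hasDerivWithinAt) hbd (convex_uIcc u (u + h))
    (left_mem_uIcc) (right_mem_uIcc)
  rw [Real.norm_eq_abs, Real.norm_eq_abs, add_sub_cancel_left] at h1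
  calc _ ≤ _ := h1
    _ = _ := by ring

theorem Wf_lipschitz (J : ℕ) (c : ℕ → ℝ) : ∃ C : ℝ, 0 < C ∧ ∀ u h : ℝ, |h| ≤ 1 →
    |Wf J c (u + h) - Wf J c u| ≤ C * |h| * Real.exp (-(u ^ 2 / 4)) := by
  refine ⟨(∑ j ∈ Finset.range J, |c j| * (2 * ((j : ℝ) + 1) * Real.exp (1 / 2))) + 1, ?_, ?_⟩
  · have : 0 ≤ ∑ j ∈ Finset.range J, |c j| * (2 * ((j : ℝ) + 1) * Real.exp (1 / 2)) :=
      Finset.sum_nonneg fun j _ => by positivity
    linarith
  · intro u h hh
    unfold Wf
    rw [← Finset.sum_sub_distrib]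
    calc _ ≤ ∑ j ∈ Finset.range J, |c j * Real.exp (-(((j : ℝ) + 1) * (u + h) ^ 2)) -
          c j * Real.exp (-(((j : ℝ) + 1) * u ^ 2))| := Finset.abs_sum_le_sum_abs _ _
      _ ≤ ∑ j ∈ Finset.range J, |c j| * (2 * ((j : ℝ) + 1) * Real.exp (1 / 2)) *
          (|h| * Real.exp (-(u ^ 2 / 4))) := by
          refine Finset.sum_le_sum fun j _ => ?_
          rw [← mul_sub, abs_mul]
          have := gauss_lip (a := (j : ℝ) + 1) (by
            have : (0 : ℝ) ≤ j := Nat.cast_nonneg j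
            linarith) (u := u) hh
          calc |c j| * _ ≤ |c j| * _ := mul_le_mul_of_nonneg_left this (abs_nonneg _)
            _ = _ := by ring
      _ = (∑ j ∈ Finset.range J, |c j| * (2 * ((j : ℝ) + 1) * Real.exp (1 / 2))) *
          (|h| * Real.exp (-(u ^ 2 / 4))) := by rw [Finset.sum_mul]
      _ ≤ _ := by
          rw [mul_assoc (_ + 1)]
          apply mul_le_mul_of_nonneg_right _ (by positivity)
          linarith

theorem Wf_integral (J : ℕ) (c : ℕ → ℝ) : Integrable (Wf J c) ∧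
    ∫ u, Wf J c u = Real.sqrt Real.pi * ∑ j ∈ Finset.range J, c j / Real.sqrt ((j : ℝ) + 1) := by
  have hpos : ∀ j : ℕ, 0 < (j : ℝ) + 1 := fun j => by positivity
  have hint : ∀ j : ℕ, Integrable (fun u : ℝ => c j * Real.exp (-(((j : ℝ) + 1) * u ^ 2))) := by
    intro j
    have := (integrable_exp_neg_mul_sq (hpos j)).const_mul (c j)
    simpa only [neg_mul] using this
  have hW : Wf J c = fun u => ∑ j ∈ Finset.range J, c j * Real.exp (-(((j : ℝ) + 1) * u ^ 2)) := rfl
  constructor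
  · rw [hW]
    exact integrable_finsetSum _ fun j _ => hint j
  · rw [hW, integral_finsetSum _ fun j _ => hint j, Finset.mul_sum]
    refine Finset.sum_congr rfl fun j _ => ?_
    rw [integral_const_mul]
    have := integral_gaussian ((j : ℝ) + 1)
    simp only [neg_mul] at this
    rw [this, Real.sqrt_div Real.pi_pos.le]
    ring

end Pool.Agent.helper18.LS
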